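import Pool.Agent.H61.HB.Stmts4

/-!
Row ASH: `adv` of shifted fields.
-/

set_option autoImplicit false

namespace HB

theorem ash_thm (h1 : FSBStmt) : ASHStmt := by
  intro M c d g h _ hg _
  obtain ⟨hfin, -⟩ := h1
  have hF := hfin M
  have hg0 : ∀ l : Z2, l ∉ {k : Z2 | sq k ≤ M ^ 2} → ∀ i, g i l = 0 := by
    intro l hl i
    apply hg i l
    simpa using hl
  funext j k
  have hs1 : Summable (fun l => trm g (h j) (k - (c + d)) l) := by
    apply summable_of_finite_support
    refine hF.subset ?_
    intro l hl
    by_contra hc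
    apply hl
    simp [trm, hg0 l hc]
  have hs2 : Summable (fun l : Z2 => (∑ i : Fin 2, g i l * (Complex.I * (co i d : ℂ))) *
      h j (k - (c + d) - l)) := by
    apply summable_of_finite_support
    refine hF.subset ?_
    intro l hl
    by_contra hc
    apply hl
    simp [hg0 l hc]
  change (∑' l, trm (sh c g) ((sh d h) j) k l) =
    (∑' l, trm g (h j) (k - (c + d)) l) +
      (∑' l : Z2, (∑ i : Fin 2, g i l * (Complex.I * (co i d : ℂ))) * h j (k - (c + d) - l))
  rw [← hs1.tsum_add hs2, ← (Equiv.addRight c).tsum_eq]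
  refine tsum_congr fun l => ?_
  have h2 : k - (l + c) - d = k - (c + d) - l := by abel
  have h3 : ∀ i, ((co i (k - (l + c)) : ℝ) : ℂ) =
      ((co i (k - (c + d) - l) : ℝ) : ℂ) + ((co i d : ℝ) : ℂ) := by
    intro i
    unfold co
    split_ifs
    · simp only [Prod.fst_sub, Prod.fst_add]
      push_cast
      ring
    · simp only [Prod.snd_sub, Prod.snd_add]
      push_cast
      ring
  simp only [trm, sh, Equiv.coe_addRight, add_sub_cancel_right, h2, h3, Fin.sum_univ_two]
  ring

end HB
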